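import Mathlib
import Pool.Agent.H33.NbDefs
import Pool.Agent.H33.Nb1

namespace Pool.Agent.Results.MP_ca9574_an.Q2
open Metric Set Filter Topology Pool.Agent.H33.Nb

lemma norm_sq {n : ℕ} (a b : Cn n) (h : ∀ l : ℂ, ‖l‖ = 1 → ‖a + l • b‖ = 1) (l : ℂ) :
    ‖a + l • b‖ ^ 2 = 1 + (‖l‖ ^ 2 - 1) * ‖b‖ ^ 2 := by
  have e : ∀ l : ℂ, ‖a + l • b‖ ^ 2 = ‖a‖ ^ 2 + 2 * (l * inner ℂ a b).re + ‖l‖ ^ 2 * ‖b‖ ^ 2 := by
    intro l
    rw [@norm_add_sq ℂ, inner_smul_right, norm_smul, mul_pow]; rfl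
  have h1 := e 1
  have h2 := e (-1)
  have h3 := e Complex.I
  have h4 := e (-Complex.I)
  rw [h _ (by simp)] at h1 h2 h3 h4
  simp only [norm_one, norm_neg, Complex.norm_I, Complex.mul_re, Complex.neg_re, Complex.neg_im,
    Complex.I_re, Complex.I_im, Complex.one_re, Complex.one_im] at h1 h2 h3 h4
  have k1 : (inner ℂ a b).re = 0 := by linarith
  have k2 : (inner ℂ a b).im = 0 := by linarith
  rw [e, Complex.mul_re, k1, k2]
  rw [k1, k2] at h1
  linarith

theorem result (n : ℕ) : ∃ f : Cn n → ℂ, InA f ∧ InAinf f ∧ NB f := by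
  obtain ⟨N, c, L, c0, hbig, hsm, hL, hT⟩ := params
  let d : ℕ → closedBall (0 : Cn n) 1 := TopologicalSpace.denseSeq _
  have hd : DenseRange d := TopologicalSpace.denseRange_denseSeq _
  let l : ℕ → Cn n →L[ℂ] ℂ := fun j => innerSL ℂ (d (Nat.unpair j).1).1
  have hl : ∀ j, ‖l j‖ ≤ 1 := fun j => by
    rw [innerSL_apply_norm]; exact mem_closedBall_zero_iff.1 (d _).2
  let t : ℕ → Cn n → ℂ := fun j z => (c j : ℂ) * l j z ^ N j
  have ht : ∀ j, ContDiff ℂ ⊤ (t j) := fun j => by fun_prop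
  have hv : ∀ k, Summable fun j => c j * (N j + 1) ^ k := by
    intro k
    refine Summable.of_norm_bounded_eventually_nat summable_geometric_two ?_
    filter_upwards [eventually_ge_atTop k] with j hj
    have := c0 j
    rw [Real.norm_of_nonneg (by positivity)]
    refine le_trans ?_ (hsm j)
    gcongr
    linarith [Nat.cast_nonneg (α := ℝ) (N j)]
  have hb : ∀ k j x, ‖x‖ ≤ 1 → ‖iteratedFDeriv ℂ k (t j) x‖ ≤ c j * (N j + 1) ^ k :=
    fun k j x hx => term_bound (l j) (hl j) (c j) (c0 j).le (N j) k x hx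
  have htR : ∀ (R : ℝ) j x, ‖x‖ ≤ R → ‖t j x‖ ≤ c j * R ^ N j := by
    intro R j x hx
    have h1 : ‖l j x‖ ≤ R := ((l j).le_opNorm x).trans
      ((mul_le_of_le_one_left (norm_nonneg _) (hl j)).trans hx)
    simp only [t, norm_mul, norm_pow, Complex.norm_real, Real.norm_eq_abs, abs_of_pos (c0 j)]
    have := c0 j
    gcongr
  have ht1 : ∀ j x, ‖x‖ ≤ 1 → ‖t j x‖ ≤ c j := fun j x hx => by simpa using htR 1 j x hx
  have hc : Summable c := by simpa using hv 0
  have hdiff : DifferentiableOn ℂ (fun x => ∑' j, t j x) (ball 0 1) := by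
    intro x hx
    exact (hasFDerivAt_tsum_of_isPreconnected (𝕜 := ℂ) (hv 1) isOpen_ball
      (convex_ball (0 : Cn n) 1).isPreconnected (f := t) (f' := fun j y => fderiv ℂ (t j) y)
      (fun j y _ => ((ht j).differentiable (by simp) y).hasFDerivAt)
      (fun j y hy => by
        rw [← norm_iteratedFDeriv_one]; exact hb _ _ _ (mem_ball_zero_iff.1 hy).le)
      hx (Summable.of_norm_bounded hc fun j => ht1 _ _ (mem_ball_zero_iff.1 hx).le)
      hx).differentiableAt.differentiableWithinAt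
  refine ⟨fun x => ∑' j, t j x, ⟨hdiff, ?_⟩, ⟨hdiff, fun k => ⟨_, ?_, iter_tsum t ht _ hv hb k⟩⟩, ?_⟩
  · exact continuousOn_tsum (fun j => (ht j).continuous.continuousOn) hc
      fun j x hx => ht1 j x (mem_closedBall_zero_iff.1 hx)
  · exact continuousOn_tsum (fun j => ((ht j).continuous_iteratedFDeriv le_top).continuousOn) (hv k)
      fun j x hx => hb k j x (mem_closedBall_zero_iff.1 hx)
  rintro a b hb0 hab τ hτ ⟨w0, R, h, hτR, hh, hg⟩
  have hn := norm_sq a b hab
  have bpos : 0 < ‖b‖ := norm_pos_iff.2 hb0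
  have b1 : ‖b‖ ^ 2 ≤ 1 := by
    have := hn 0
    have h2 := sq_nonneg ‖a + (0 : ℂ) • b‖
    rw [norm_zero] at this
    linarith
  obtain ⟨ε, hε, hεR⟩ := Metric.isOpen_iff.1 isOpen_ball τ hτR
  obtain ⟨ρ, hρ, hρ1, hρ2⟩ : ∃ ρ : ℝ, 0 < ρ ∧ ρ ≤ 1 / 4 ∧ 4 * ρ < ε :=
    ⟨min (1 / 4) (ε / 5), lt_min (by norm_num) (by positivity), min_le_left _ _, by
      have := min_le_right (1 / 4) (ε / 5); linarith⟩
  set w : ℂ := (1 - ρ : ℝ) * τ with hw
  set z : ℂ := (1 + ρ : ℝ) * τ with hz
  have nw : ‖w‖ = 1 - ρ := by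
    rw [hw, norm_mul, hτ, Complex.norm_real, Real.norm_of_nonneg (by linarith), mul_one]
  have nz : ‖z‖ = 1 + ρ := by
    rw [hz, norm_mul, hτ, Complex.norm_real, Real.norm_of_nonneg (by linarith), mul_one]
  have nzw : ‖z - w‖ = 2 * ρ := by
    have : z - w = (2 * ρ : ℝ) * τ := by rw [hz, hw]; push_cast; ring
    rw [this, norm_mul, hτ, Complex.norm_real, Real.norm_of_nonneg (by linarith), mul_one]
  have nwτ : ‖w - τ‖ = ρ := by
    have : w - τ = -((ρ : ℝ) * τ) := by rw [hw]; push_cast; ring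
    rw [this, norm_neg, norm_mul, hτ, Complex.norm_real, Real.norm_of_nonneg (by linarith), mul_one]
  have sub : closedBall w (3 * ρ) ⊆ ball w0 R := fun x hx => hεR (by
    rw [mem_closedBall, dist_eq_norm] at hx
    rw [mem_ball, dist_eq_norm]
    have := norm_sub_le_norm_sub_add_norm_sub x w τ
    linarith)
  obtain ⟨M, hM⟩ := (isCompact_closedBall w (3 * ρ)).exists_bound_of_continuousOn
    (hh.continuousOn.mono sub)
  have main : ∀ j : ℕ, M ≤ j → ‖h z - ∑ i ∈ Finset.range j, t i (a + z • b)‖ ≤ 3 := by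
    intro j hj
    have key := two_const (fun x => h x - ∑ i ∈ Finset.range j, t i (a + x • b)) w z ρ
      (j + ∑ i ∈ Finset.range j, c i * 3 ^ N i) (2 / 4 ^ L j) hρ
      ((hh.mono sub).sub (Differentiable.differentiableOn (by fun_prop))) ?_ ?_ nzw (L j)
    · have := hL j
      rw [div_mul_cancel₀ _ (by positivity)] at key
      linarith
    · intro x hx
      refine (norm_sub_le _ _).trans (add_le_add ((hM x hx).trans hj)
        ((norm_sum_le _ _).trans (Finset.sum_le_sum fun i _ => htR 3 i _ ?_)))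
      rw [mem_closedBall, dist_eq_norm] at hx
      have h1 : ‖x‖ ≤ 2 := by
        have := norm_le_norm_add_norm_sub' x w
        linarith
      have h2 := hn x
      have h3 : ‖x‖ ^ 2 ≤ 4 := by nlinarith [norm_nonneg x]
      nlinarith [norm_nonneg (a + x • b), sq_nonneg ‖b‖]
    · intro x hx
      have hx' : x ∈ ball w0 R := sub (ball_subset_closedBall (ball_subset_ball (by linarith) hx))
      rw [mem_ball, dist_eq_norm] at hx
      have h1 : ‖x‖ < 1 := by
        have := norm_le_norm_add_norm_sub' x w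
        linarith
      have h2 : ‖a + x • b‖ ≤ 1 := by
        have h3 : ‖x‖ ^ 2 ≤ 1 := by nlinarith [norm_nonneg x]
        have h4 := hn x
        nlinarith [norm_nonneg (a + x • b), sq_nonneg ‖b‖]
      have hs : Summable fun i => t i (a + x • b) := Summable.of_norm_bounded hc fun i => ht1 _ _ h2
      rw [hg ⟨hx', mem_ball_zero_iff.2 h1⟩]
      simp only
      rw [← hs.sum_add_tsum_nat_add j, add_sub_cancel_left]
      refine tsum_of_norm_bounded (g := fun i => (1 / 2) ^ i / 4 ^ L j)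
        (hasSum_geometric_two.div_const _) fun i => (ht1 _ _ h2).trans ?_
      rw [le_div_iff₀ (by positivity)]
      exact hT j i
  set p := a + z • b with hp
  have p1 : 1 < ‖p‖ := by
    have h1 := hn z
    rw [nz, ← hp] at h1
    have : 0 < ((1 + ρ) ^ 2 - 1) * ‖b‖ ^ 2 := mul_pos (by nlinarith) (by positivity)
    nlinarith [norm_nonneg p]
  have hopen : IsOpen {s : closedBall (0 : Cn n) 1 | (1 + ‖p‖) / 2 < ‖inner ℂ s.1 p‖} :=
    isOpen_lt continuous_const (by fun_prop)
  obtain ⟨i, hi⟩ := hd.exists_mem_open hopen ⟨⟨((‖p‖⁻¹ : ℝ) : ℂ) • p, by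
      rw [mem_closedBall_zero_iff, norm_smul, Complex.norm_real, Real.norm_of_nonneg (by positivity),
        inv_mul_cancel₀ (by positivity)]⟩, by
      simp only [mem_ofPred_eq, inner_smul_left, inner_self_eq_norm_sq_to_K, norm_mul, norm_pow,
        Complex.conj_ofReal, Complex.norm_real, Complex.coe_algebraMap, norm_inv, norm_norm]
      rw [sq, ← mul_assoc, inv_mul_cancel₀ (by positivity)]
      linarith⟩
  obtain ⟨k, hk⟩ := exists_nat_gt (max (max M 7) (2 / (‖p‖ - 1)))
  have hk1 : (k : ℝ) ≤ Nat.pair i k := by exact_mod_cast Nat.right_le_pair i k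
  set j := Nat.pair i k with hj
  have m1 := le_max_left (max M 7) (2 / (‖p‖ - 1))
  have m2 := le_max_right (max M 7) (2 / (‖p‖ - 1))
  have m3 := le_max_left M 7
  have m4 := le_max_right M 7
  have k1 := main j (by linarith)
  have k2 := main (j + 1) (by push_cast; linarith)
  rw [Finset.sum_range_succ] at k2
  have k3 : ‖t j p‖ ≤ 6 := by
    have : t j p = (h z - ∑ i ∈ Finset.range j, t i p) - (h z - (∑ i ∈ Finset.range j, t i p + t j p)) := by
      ring
    rw [this]
    exact (norm_sub_le _ _).trans (by linarith)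
  have k4 : 1 + 1 / ((j : ℝ) + 1) ≤ ‖l j p‖ := by
    have e : l j p = inner ℂ (d i).1 p := by simp only [l, hj, Nat.unpair_pair, innerSL_apply_apply]
    rw [e]
    refine le_trans ?_ (le_of_lt hi)
    have h1 : 2 / (‖p‖ - 1) ≤ j + 1 := by linarith
    rw [div_le_iff₀ (by linarith)] at h1
    have h2 : 1 / ((j : ℝ) + 1) ≤ (‖p‖ - 1) / 2 := by
      rw [div_le_div_iff₀ (by positivity) (by norm_num)]; linarith
    linarith
  have k5 : c j * (1 + 1 / ((j : ℝ) + 1)) ^ N j ≤ ‖t j p‖ := by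
    simp only [t, norm_mul, norm_pow, Complex.norm_real, Real.norm_eq_abs, abs_of_pos (c0 j)]
    have := c0 j
    gcongr
  have := hbig j
  linarith

end Pool.Agent.Results.MP_ca9574_an.Q2
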